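import Pool.Agent.H565.Cyc.Rate

set_option autoImplicit false

namespace Pool.Agent.H565.Cyc
open Finset
open scoped Classical

noncomputable section

variable {ℒ : ℕ → Finset ℕ} {R : ℕ} {q : ℕ → ℕ}

def csok (n : ℕ) (c : ℕ → ℕ) : Prop :=
  c (n - 1) ≠ c (n - 2) ∧ ¬ (c (n - 4) = c (n - 2) ∧ c (n - 1) = c (n - 3)) ∧
    ¬ (c (n - 1) = c (n - 3) ∧ c (n - 2) = c 0) ∧ ¬ (c (n - 2) = c 0 ∧ c (n - 1) = c 1)

lemma close_list (A : Finset ℕ) (hA : 4 ≤ A.card) (z p p2 p3 w1 : ℕ) (hz : z ∉ A) :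
    3 - (if p = p3 then (1 : ℚ) else 0) - (if p = z then (1 : ℚ) else 0) ≤
      ∑ x ∈ A, (if x ≠ p ∧ ¬ (p3 = p ∧ x = p2) ∧ ¬ (x = p2 ∧ p = z) ∧ ¬ (p = z ∧ x = w1)
        then (1 : ℚ) else 0) := by
  have hA' : (4 : ℚ) ≤ A.card := by exact_mod_cast hA
  have h1 := sum_ind_le A p
  have h2 := sum_ind_le A p2
  have h3 := sum_ind_le A w1
  by_cases h : p = z
  · rw [if_pos h]
    have key : ∀ x ∈ A, (1 : ℚ) - (if x = p2 then (1 : ℚ) else 0) - (if x = w1 then (1 : ℚ) else 0) ≤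
        (if x ≠ p ∧ ¬ (p3 = p ∧ x = p2) ∧ ¬ (x = p2 ∧ p = z) ∧ ¬ (p = z ∧ x = w1)
        then (1 : ℚ) else 0) := by
      intro x hx
      have hxp : x ≠ p := by rintro rfl; exact hz (h ▸ hx)
      by_cases hp : x = p2 <;> by_cases hq : x = w1 <;> simp [hp, hq, h] <;> (try split_ifs) <;>
        (try norm_num) <;> (try simp_all)
    have := sum_le_sum key
    rw [sum_sub_distrib, sum_sub_distrib, sum_const, nsmul_eq_mul, mul_one] at this
    have h0 : (0 : ℚ) ≤ (if p = p3 then (1 : ℚ) else 0) := by split_ifs <;> norm_num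
    linarith
  · rw [if_neg h]
    by_cases h' : p = p3
    · rw [if_pos h']
      have key : ∀ x ∈ A, (1 : ℚ) - (if x = p then (1 : ℚ) else 0) - (if x = p2 then (1 : ℚ) else 0) ≤
          (if x ≠ p ∧ ¬ (p3 = p ∧ x = p2) ∧ ¬ (x = p2 ∧ p = z) ∧ ¬ (p = z ∧ x = w1)
          then (1 : ℚ) else 0) := by
        intro x hx
        by_cases hp : x = p <;> by_cases hq : x = p2 <;> simp [hp, hq, h, h'] <;> (try split_ifs) <;>
          (try norm_num) <;> (try simp_all)
      have := sum_le_sum key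
      rw [sum_sub_distrib, sum_sub_distrib, sum_const, nsmul_eq_mul, mul_one] at this
      linarith
    · rw [if_neg h']
      have h'' : ¬ p3 = p := fun e => h' e.symm
      have key : ∀ x ∈ A, (1 : ℚ) - (if x = p then (1 : ℚ) else 0) ≤
          (if x ≠ p ∧ ¬ (p3 = p ∧ x = p2) ∧ ¬ (x = p2 ∧ p = z) ∧ ¬ (p = z ∧ x = w1)
          then (1 : ℚ) else 0) := by
        intro x hx
        by_cases hp : x = p <;> simp [hp, h, h'']
      have := sum_le_sum key
      rw [sum_sub_distrib, sum_const, nsmul_eq_mul, mul_one] at this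
      linarith

lemma nq_le {m : ℕ} (hm : 2 ≤ m) :
    ∑ w ∈ W ℒ m, (if w (m - 1) = w 0 then (1 : ℚ) else 0) ≤ N ℒ (m - 1) := by
  rw [← sum_filter, N_eq]
  refine inj_bound (m := m) (j := m - 1) (fun _ => 0) ?_ ?_ ?_ _ _ ?_ ?_
  · intro c hc i hi
    rw [mem_filter, mem_W] at hc
    exact hc.1.1.2 i hi
  · intro c hc
    rw [mem_filter, mem_W] at hc
    exact trunc_mem (fun k hk => hc.1.1.1 k (by omega)) (fun p hp => hc.1.2 p (by omega))
  · intro c hc i h1 h2
    rw [mem_filter] at hc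
    refine ⟨by show 0 < m - 1; omega, ?_⟩
    have e : i = m - 1 := by omega
    subst e
    exact hc.2
  · intro c _; exact le_rfl
  · intro v _; norm_num

lemma Setup.close_count (hS : Setup ℒ R q) {n : ℕ} (hn : R + 3 ≤ n) (hx : q 0 ∉ ℒ (n - 1)) :
    (239 / 99 : ℚ) * S ℒ (n - 1) ≤ ∑ c ∈ U ℒ (n - 1), (if csok n c then (1 : ℚ) else 0) := by
  have h2 := hS.hR2
  have hcard := hS.hL (n - 1) (by omega)
  have h1 : 3 * N ℒ (n - 1) - aCount ℒ (n - 1) -
      ∑ w ∈ W ℒ (n - 1), (if w (n - 1 - 1) = w 0 then (1 : ℚ) else 0) ≤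
      ∑ c ∈ U ℒ (n - 1), (if csok n c then (1 : ℚ) else 0) := by
    rw [sum_U, N_eq, mul_sum, aCount, ← sum_sub_distrib, ← sum_sub_distrib]
    refine sum_le_sum fun w hw => ?_
    have hw0 : w 0 = q 0 := hS.eq_q (mem_W.mp hw).1.1 (by omega) (by omega)
    have := close_list (ℒ (n - 1)) hcard (w 0) (w (n - 2)) (w (n - 3)) (w (n - 4)) (w 1)
      (by rw [hw0]; exact hx)
    have e1 : n - 1 - 1 = n - 2 := by omega
    have e2 : n - 1 - 3 = n - 4 := by omega
    rw [e1, e2, mul_one]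
    refine this.trans (le_of_eq ?_)
    refine sum_congr rfl fun x _ => ?_
    have f1 : Function.update w (n - 1) x (n - 2) = w (n - 2) := Function.update_of_ne (by omega) _ _
    have f2 : Function.update w (n - 1) x (n - 3) = w (n - 3) := Function.update_of_ne (by omega) _ _
    have f3 : Function.update w (n - 1) x (n - 4) = w (n - 4) := Function.update_of_ne (by omega) _ _
    have f4 : Function.update w (n - 1) x 0 = w 0 := Function.update_of_ne (by omega) _ _
    have f5 : Function.update w (n - 1) x 1 = w 1 := Function.update_of_ne (by omega) _ _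
    have f6 : Function.update w (n - 1) x (n - 1) = x := Function.update_self _ _ _
    simp only [csok, f1, f2, f3, f4, f5, f6]
  have h3 := nq_le (ℒ := ℒ) (m := n - 1) (by omega)
  have h4 := aCount_le (ℒ := ℒ) (m := n - 1) (by omega)
  have h5 := N_eq_S (ℒ := ℒ) (n - 1)
  have e1 : n - 1 - 1 = n - 2 := by omega
  rw [e1] at h1 h3 h4
  obtain ⟨g1, g2, _⟩ := hS.rate (n - 2) (by omega)
  have e2 : n - 2 + 1 = n - 1 := by omega
  rw [e2] at g1
  have hSn := S_nonneg (ℒ := ℒ) (n - 1)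
  linarith

def Win (n t s : ℕ) (c : ℕ → ℕ) : Prop :=
  ∀ i < t, c ((n - 1 - s + i) % n) = c ((n - 1 - s + i + t) % n)

lemma win_bound1 {n t s : ℕ} (ht : 1 ≤ t) (htn : 2 * t ≤ n) (h1 : t ≤ s + 1) (h2 : s + 1 ≤ 2 * t) :
    ∑ c ∈ U ℒ (n - 1), (if Win n t s c then (1 : ℚ) else 0) ≤ N ℒ (n - t) := by
  rw [sum_ite_filter, N_eq]
  refine inj_bound (m := n) (j := n - t) (fun k => if k < n - 1 - s + t then k + t - n else k - t)
    ?_ ?_ ?_ _ _ ?_ ?_
  · intro c hc i hi
    rw [mem_filter, mem_U] at hc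
    exact hc.1.1.2 i (by omega)
  · intro c hc
    rw [mem_filter] at hc
    exact trunc_U hc.1 (by omega)
  · intro c hc k hk1 hk2
    rw [mem_filter] at hc
    by_cases hk : k < n - 1 - s + t
    · simp only [if_pos hk]
      refine ⟨by omega, ?_⟩
      have := hc.2 (k - (n - 1 - s)) (by omega)
      have e1 : n - 1 - s + (k - (n - 1 - s)) = k := by omega
      have e2 : (k + t) % n = k + t - n := by
        rw [Nat.mod_eq_sub_mod (by omega), Nat.mod_eq_of_lt (by omega)]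
      rw [e1, e2, Nat.mod_eq_of_lt (by omega)] at this
      exact this
    · simp only [if_neg hk]
      refine ⟨by omega, ?_⟩
      have := hc.2 (k - t - (n - 1 - s)) (by omega)
      have e1 : n - 1 - s + (k - t - (n - 1 - s)) = k - t := by omega
      have e3 : k - t + t = k := by omega
      rw [e1, e3, Nat.mod_eq_of_lt (by omega), Nat.mod_eq_of_lt (by omega)] at this
      exact this.symm
  · intro c _; exact le_rfl
  · intro v _; norm_num

lemma win_bound2 {n t s : ℕ} (htn : 2 * t ≤ n) (h1 : s + 2 ≤ t) :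
    ∑ c ∈ U ℒ (n - 1), (if Win n t s c then (1 : ℚ) else 0) ≤ N ℒ (n - 1 - s) := by
  rw [sum_ite_filter, N_eq]
  refine inj_bound (m := n) (j := n - 1 - s) (fun k => k + t - n)
    ?_ ?_ ?_ _ _ ?_ ?_
  · intro c hc i hi
    rw [mem_filter, mem_U] at hc
    exact hc.1.1.2 i (by omega)
  · intro c hc
    rw [mem_filter] at hc
    exact trunc_U hc.1 (by omega)
  · intro c hc k hk1 hk2
    rw [mem_filter] at hc
    refine ⟨by show k + t - n < n - 1 - s; omega, ?_⟩
    have := hc.2 (k - (n - 1 - s)) (by omega)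
    have e1 : n - 1 - s + (k - (n - 1 - s)) = k := by omega
    have e2 : (k + t) % n = k + t - n := by
      rw [Nat.mod_eq_sub_mod (by omega), Nat.mod_eq_of_lt (by omega)]
    rw [e1, e2, Nat.mod_eq_of_lt (by omega)] at this
    exact this
  · intro c _; exact le_rfl
  · intro v _; norm_num

/-- classification of the bad windows -/
lemma Setup.classify (hS : Setup ℒ R q) {n : ℕ} (hn : 5 ≤ n)
    (hR : (n ≤ 13 ∧ R = n / 2) ∨ (14 ≤ n ∧ R = 6)) (hx : q 0 ∉ ℒ (n - 1))
    {c : ℕ → ℕ} (hc : c ∈ U ℒ (n - 1)) (hok : csok n c) {t a : ℕ} (ht : 1 ≤ t) (htn : 2 * t ≤ n)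
    (ha : a < n) (hw : ∀ i < t, c ((a + i) % n) = c ((a + i + t) % n)) :
    ∃ s, Win n t s c ∧ ((3 ≤ t ∧ t ≤ s + 1 ∧ s + 1 ≤ 2 * t ∧ R + 1 + t ≤ n) ∨
      (7 ≤ t ∧ t ≤ s + 4 ∧ s + 2 ≤ t)) := by
  have h2 := hS.hR2
  have hcU := mem_U.mp hc
  have hc1 := hcU.1.1
  have e0 : n - 1 + 1 = n := by omega
  rw [e0] at hc1
  have hq : ∀ i ≤ R, c i = q i := fun i hi => hS.eq_q hc1 hi (by omega)
  have hc0 : ∀ i, 1 ≤ i → i ≤ R → c i ≠ c 0 := by
    intro i h1 h3
    rw [hq i h3, hq 0 (by omega)]; exact hS.q0 i h1 h3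
  have hx0 : c (n - 1) ≠ c 0 := by
    intro h
    rw [hq 0 (by omega)] at h
    exact hx (h ▸ hc1 (n - 1) (by omega))
  -- the window reaches index n-1
  have hreach : n ≤ a + 2 * t := by
    by_contra hlt
    obtain ⟨i, hi, hne⟩ := (hcU.2 (a + 2 * t - 1) (by omega)).1 t a ht (by omega)
    apply hne
    have := hw i hi
    rw [Nat.mod_eq_of_lt (by omega), Nat.mod_eq_of_lt (by omega)] at this
    rw [this]; congr 1; omega
  obtain ⟨s, hs⟩ : ∃ s, s = n - 1 - a := ⟨_, rfl⟩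
  have has : a = n - 1 - s := by omega
  have hs2 : s + 1 ≤ 2 * t := by omega
  have hwin : Win n t s c := by
    intro i hi
    rw [← has]; exact hw i hi
  refine ⟨s, hwin, ?_⟩
  have hwm : ∀ i < t, ∀ u v, (a + i = u ∨ a + i = u + n) → u < n → (a + i + t = v ∨ a + i + t = v + n) →
      v < n → c u = c v := by
    intro i hi u v hu hun hv hvn
    have := hw i hi
    have e1 : (a + i) % n = u := by
      rcases hu with h | h
      · rw [h, Nat.mod_eq_of_lt hun]
      · rw [h, Nat.add_mod_right, Nat.mod_eq_of_lt hun]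
    have e2 : (a + i + t) % n = v := by
      rcases hv with h | h
      · rw [h, Nat.mod_eq_of_lt hvn]
      · rw [h, Nat.add_mod_right, Nat.mod_eq_of_lt hvn]
    rwa [e1, e2] at this
  have t3 : 3 ≤ t := by
    by_contra hlt
    have : t = 1 ∨ t = 2 := by omega
    rcases this with rfl | rfl
    · have hs' : s = 0 ∨ s = 1 := by omega
      rcases hs' with h | h
      · exact hx0 (hwm 0 (by norm_num) (n - 1) 0 (by omega) (by omega) (by omega) (by omega))
      · exact hok.1 (hwm 0 (by norm_num) (n - 2) (n - 1) (by omega) (by omega) (by omega)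
          (by omega)).symm
    · have hs' : s = 0 ∨ s = 1 ∨ s = 2 ∨ s = 3 := by omega
      rcases hs' with h | h | h | h
      · exact hc0 2 (by norm_num) h2 (hwm 1 (by norm_num) 0 2 (by omega) (by omega) (by omega)
          (by omega)).symm
      · exact hok.2.2.2 ⟨hwm 0 (by norm_num) (n - 2) 0 (by omega) (by omega) (by omega) (by omega),
          hwm 1 (by norm_num) (n - 1) 1 (by omega) (by omega) (by omega) (by omega)⟩
      · exact hok.2.2.1 ⟨(hwm 0 (by norm_num) (n - 3) (n - 1) (by omega) (by omega) (by omega)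
          (by omega)).symm,
          hwm 1 (by norm_num) (n - 2) 0 (by omega) (by omega) (by omega) (by omega)⟩
      · exact hok.2.1 ⟨hwm 0 (by norm_num) (n - 4) (n - 2) (by omega) (by omega) (by omega) (by omega),
          (hwm 1 (by norm_num) (n - 3) (n - 1) (by omega) (by omega) (by omega) (by omega)).symm⟩
  by_cases hts : t ≤ s + 1
  · left
    refine ⟨t3, hts, hs2, ?_⟩
    by_contra hlt
    have hnt : n = 2 * t ∧ R = t := by
      rcases hR with ⟨h3, h4⟩ | ⟨h3, h4⟩ <;> omega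
    apply hc0 t ht (by omega)
    by_cases hs3 : s + 1 = 2 * t
    · exact (hwm 0 (by omega) 0 t (by omega) (by omega) (by omega) (by omega)).symm
    · exact hwm (s + 1 - t) (by omega) t 0 (by omega) (by omega) (by omega) (by omega)
  · right
    have h0t : c 0 = c t := hwm (s + 1) (by omega) 0 t (by omega) (by omega) (by omega) (by omega)
    have htR : R + 1 ≤ t := by
      by_contra hlt
      exact hc0 t ht (by omega) h0t.symm
    have h14 : 14 ≤ n ∧ R = 6 := by
      rcases hR with ⟨h3, h4⟩ | h3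
      · omega
      · exact h3
    refine ⟨by omega, ?_, by omega⟩
    by_contra hlt
    obtain ⟨i, hi, hne⟩ := (hcU.2 (t + 3) (by omega)).2 (by omega)
    apply hne
    have e1 : t + 3 - 3 + i = t + i := by omega
    rw [e1]
    exact (hwm (s + 1 + i) (by omega) i (t + i) (by omega) (by omega) (by omega) (by omega)).symm

lemma sumI (T : ℕ) (hT : 2 ≤ T) :
    ∑ t ∈ Icc 3 T, ((t : ℚ) + 1) * (4 / 9) ^ (t - 1) =
      128 / 75 - (4 / 9) ^ T * (9 / 5 * (T + 2) + 36 / 25) := by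
  induction T, hT using Nat.le_induction with
  | base => rw [Icc_eq_empty (by norm_num)]; norm_num
  | succ T hT ih =>
    rw [sum_Icc_succ_top (by omega), ih]
    have e : T + 1 - 1 = T := by omega
    rw [e]
    push_cast
    ring

lemma sumII (T : ℕ) (hT : 6 ≤ T) :
    ∑ t ∈ Icc 7 T, ∑ s ∈ Icc (t - 4) (t - 2), (4 / 9 : ℚ) ^ s =
      133 / 45 * ((4 / 9) ^ 3 - (4 / 9) ^ (T - 3)) := by
  induction T, hT using Nat.le_induction with
  | base => rw [Icc_eq_empty (by norm_num)]; norm_num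
  | succ T hT ih =>
    rw [sum_Icc_succ_top (by omega), ih]
    have e1 : T + 1 - 2 = T + 1 - 4 + 1 + 1 := by omega
    rw [e1, sum_Icc_succ_top (by omega), sum_Icc_succ_top (by omega), Icc_self, sum_singleton]
    have e2 : T + 1 - 4 = T - 3 := by omega
    have e3 : T + 1 - 3 = T - 3 + 1 := by omega
    rw [e2, e3]
    ring

/-- the closing theorem -/
theorem Setup.close (hS : Setup ℒ R q) {n : ℕ} (hn : 5 ≤ n)
    (hR : (n ≤ 13 ∧ R = n / 2) ∨ (14 ≤ n ∧ R = 6)) (hx : q 0 ∉ ℒ (n - 1)) :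
    ∃ c : ℕ → ℕ, (∀ k < n, c k ∈ ℒ k) ∧
      ∀ t a, 1 ≤ t → 2 * t ≤ n → a < n → ∃ i < t, c ((a + i) % n) ≠ c ((a + i + t) % n) := by
  have h2 := hS.hR2
  have h6 := hS.hR6
  have hRn : R + 3 ≤ n := by
    rcases hR with h | h <;> omega
  by_contra hcon
  push Not at hcon
  have hE := hS.close_count hRn hx
  have hSpos := hS.S_pos (k := n - 1) (by omega)
  set X : ℕ → ℕ → (ℕ → ℕ) → ℚ := fun t s c => if Win n t s c then (1 : ℚ) else 0 with hX
  have hXnn : ∀ t s c, 0 ≤ X t s c := by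
    intro t s c; simp only [hX]; split_ifs <;> norm_num
  have h1 : ∑ c ∈ U ℒ (n - 1), (if csok n c then (1 : ℚ) else 0) ≤
      ∑ c ∈ U ℒ (n - 1), (∑ t ∈ Icc 3 n, ∑ s ∈ Icc (t - 1) (2 * t - 1),
          (if 2 * t ≤ n ∧ R + 1 + t ≤ n then X t s c else 0) +
        ∑ t ∈ Icc 7 n, ∑ s ∈ Icc (t - 4) (t - 2), (if 2 * t ≤ n then X t s c else 0)) := by
    refine sum_le_sum fun c hc => ?_
    have nn1 : ∀ t s, 0 ≤ (if 2 * t ≤ n ∧ R + 1 + t ≤ n then X t s c else 0) := by
      intro t s; split_ifs <;> [exact hXnn _ _ _; exact le_rfl]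
    have nn2 : ∀ t s, 0 ≤ (if 2 * t ≤ n then X t s c else 0) := by
      intro t s; split_ifs <;> [exact hXnn _ _ _; exact le_rfl]
    have nns1 : 0 ≤ ∑ t ∈ Icc 3 n, ∑ s ∈ Icc (t - 1) (2 * t - 1),
          (if 2 * t ≤ n ∧ R + 1 + t ≤ n then X t s c else 0) :=
      sum_nonneg fun t _ => sum_nonneg fun s _ => nn1 t s
    have nns2 : 0 ≤ ∑ t ∈ Icc 7 n, ∑ s ∈ Icc (t - 4) (t - 2), (if 2 * t ≤ n then X t s c else 0) :=
      sum_nonneg fun t _ => sum_nonneg fun s _ => nn2 t s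
    by_cases hok : csok n c
    swap
    · rw [if_neg hok]; linarith
    rw [if_pos hok]
    have hcU := mem_U.mp hc
    have hc1 := hcU.1.1
    have e0 : n - 1 + 1 = n := by omega
    rw [e0] at hc1
    obtain ⟨t, a, ht, htn, ha, hw⟩ := hcon c hc1
    obtain ⟨s, hwin, hcase⟩ := hS.classify hn hR hx hc hok ht htn ha hw
    have hXv : X t s c = 1 := by simp only [hX]; rw [if_pos hwin]
    rcases hcase with ⟨b1, b2, b3, b4⟩ | ⟨b1, b2, b3⟩
    · have g1 : 1 ≤ ∑ t ∈ Icc 3 n, ∑ s ∈ Icc (t - 1) (2 * t - 1),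
          (if 2 * t ≤ n ∧ R + 1 + t ≤ n then X t s c else 0) := by
        have k1 := single_le_sum (f := fun t => ∑ s ∈ Icc (t - 1) (2 * t - 1),
          (if 2 * t ≤ n ∧ R + 1 + t ≤ n then X t s c else 0))
          (fun t _ => sum_nonneg fun s _ => nn1 t s) (show t ∈ Icc 3 n by rw [mem_Icc]; omega)
        have k2 := single_le_sum (f := fun s => (if 2 * t ≤ n ∧ R + 1 + t ≤ n then X t s c else 0))
          (fun s _ => nn1 t s) (show s ∈ Icc (t - 1) (2 * t - 1) by rw [mem_Icc]; omega)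
        rw [if_pos ⟨htn, b4⟩, hXv] at k2
        linarith
      linarith
    · have g1 : 1 ≤ ∑ t ∈ Icc 7 n, ∑ s ∈ Icc (t - 4) (t - 2),
          (if 2 * t ≤ n then X t s c else 0) := by
        have k1 := single_le_sum (f := fun t => ∑ s ∈ Icc (t - 4) (t - 2),
          (if 2 * t ≤ n then X t s c else 0))
          (fun t _ => sum_nonneg fun s _ => nn2 t s) (show t ∈ Icc 7 n by rw [mem_Icc]; omega)
        have k2 := single_le_sum (f := fun s => (if 2 * t ≤ n then X t s c else 0))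
          (fun s _ => nn2 t s) (show s ∈ Icc (t - 4) (t - 2) by rw [mem_Icc]; omega)
        rw [if_pos htn, hXv] at k2
        linarith
      linarith
  rw [sum_add_distrib, sum_comm, sum_comm (s := U ℒ (n - 1)) (t := Icc 7 n)] at h1
  have h3 : ∑ t ∈ Icc 3 n, ∑ c ∈ U ℒ (n - 1), ∑ s ∈ Icc (t - 1) (2 * t - 1),
      (if 2 * t ≤ n ∧ R + 1 + t ≤ n then X t s c else 0) ≤
      ∑ t ∈ Icc 3 n, 9 / 8 * S ℒ (n - 1) * (((t : ℚ) + 1) * (4 / 9) ^ (t - 1)) := by
    refine sum_le_sum fun t ht => ?_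
    rw [mem_Icc] at ht
    rw [sum_comm]
    have hbound : ∀ s ∈ Icc (t - 1) (2 * t - 1), ∑ c ∈ U ℒ (n - 1),
        (if 2 * t ≤ n ∧ R + 1 + t ≤ n then X t s c else 0) ≤
        9 / 8 * ((4 / 9) ^ (t - 1) * S ℒ (n - 1)) := by
      intro s hs
      rw [mem_Icc] at hs
      by_cases hcond : 2 * t ≤ n ∧ R + 1 + t ≤ n
      · simp only [if_pos hcond]
        refine (win_bound1 (by omega) hcond.1 (by omega) (by omega)).trans ?_
        have := hS.N_pow (k := n - t) (m := n - 1) (by omega) (by omega)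
        rwa [show n - 1 - (n - t) = t - 1 by omega] at this
      · simp only [if_neg hcond, sum_const_zero]
        positivity
    refine (sum_le_sum hbound).trans (le_of_eq ?_)
    rw [sum_const, nsmul_eq_mul, Nat.card_Icc]
    have : ((2 * t - 1 + 1 - (t - 1) : ℕ) : ℚ) = (t : ℚ) + 1 := by
      have : 2 * t - 1 + 1 - (t - 1) = t + 1 := by omega
      rw [this]; push_cast; ring
    rw [this]; ring
  have h4 : ∑ t ∈ Icc 7 n, ∑ c ∈ U ℒ (n - 1), ∑ s ∈ Icc (t - 4) (t - 2),
      (if 2 * t ≤ n then X t s c else 0) ≤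
      9 / 8 * S ℒ (n - 1) * (133 / 45 * (4 / 9) ^ 3) := by
    by_cases hn7 : 6 ≤ n
    · have hstep : ∑ t ∈ Icc 7 n, ∑ c ∈ U ℒ (n - 1), ∑ s ∈ Icc (t - 4) (t - 2),
          (if 2 * t ≤ n then X t s c else 0) ≤
          ∑ t ∈ Icc 7 n, ∑ s ∈ Icc (t - 4) (t - 2), 9 / 8 * S ℒ (n - 1) * (4 / 9) ^ s := by
        refine sum_le_sum fun t ht => ?_
        rw [mem_Icc] at ht
        rw [sum_comm]
        refine sum_le_sum fun s hs => ?_
        rw [mem_Icc] at hs
        by_cases hcond : 2 * t ≤ n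
        · simp only [if_pos hcond]
          refine (win_bound2 hcond (by omega)).trans ?_
          have := hS.N_pow (k := n - 1 - s) (m := n - 1) (by omega) (by omega)
          rw [show n - 1 - (n - 1 - s) = s by omega] at this
          linarith
        · simp only [if_neg hcond, sum_const_zero]
          positivity
      refine hstep.trans ?_
      simp only [← mul_sum]
      rw [sumII n hn7]
      have hp : (0 : ℚ) ≤ (4 / 9) ^ (n - 3) := by positivity
      have hc : 0 ≤ 9 / 8 * S ℒ (n - 1) := by positivity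
      refine mul_le_mul_of_nonneg_left ?_ hc
      linarith
    · rw [Icc_eq_empty (by omega), sum_empty]
      positivity
  rw [← mul_sum, sumI n (by omega)] at h3
  have h5 : 9 / 8 * S ℒ (n - 1) * (128 / 75 - (4 / 9) ^ n * (9 / 5 * ((n : ℚ) + 2) + 36 / 25)) ≤
      9 / 8 * S ℒ (n - 1) * (128 / 75) := by
    have hp : (0 : ℚ) ≤ (4 / 9) ^ n * (9 / 5 * ((n : ℚ) + 2) + 36 / 25) := by positivity
    have hc : 0 ≤ 9 / 8 * S ℒ (n - 1) := by positivity
    refine mul_le_mul_of_nonneg_left ?_ hc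
    linarith
  have h7 : 9 / 8 * S ℒ (n - 1) * (128 / 75) + 9 / 8 * S ℒ (n - 1) * (133 / 45 * (4 / 9) ^ 3) <
      239 / 99 * S ℒ (n - 1) := by
    have : (0 : ℚ) < 239 / 99 - 9 / 8 * (128 / 75) - 9 / 8 * (133 / 45 * (4 / 9) ^ 3) := by norm_num
    nlinarith
  linarith

end
end Pool.Agent.H565.Cyc
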