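import Pool.Agent.H565.Cyc.Prefix
import Pool.Agent.Helper814.Thue

set_option autoImplicit false

namespace Pool.Agent.H565.Cyc
open Finset
open scoped Classical

noncomputable section

/-- identical lists -/
theorem identical {n : ℕ} (hn : 2 ≤ n) (A : Finset ℕ) (hA : 4 ≤ A.card) :
    ∃ c : ℕ → ℕ, (∀ k < n, c k ∈ A) ∧
      ∀ t a, 1 ≤ t → 2 * t ≤ n → a < n → ∃ i < t, c ((a + i) % n) ≠ c ((a + i + t) % n) := by
  obtain ⟨B, hBA, hB⟩ := exists_subset_card_eq hA
  set f : Fin 4 → ℕ := fun i => (B.orderEmbOfFin hB) i with hf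
  have finj : Function.Injective f := (B.orderEmbOfFin hB).injective
  have fmem : ∀ i, f i ∈ A := fun i => hBA (B.orderEmbOfFin_mem hB i)
  set g : ℕ → ℕ := fun j => f ⟨j % 4, Nat.mod_lt _ (by norm_num)⟩ with hg
  have ginj : ∀ u v, u < 4 → v < 4 → g u = g v → u = v := by
    intro u v hu hv h
    have := finj h
    simp only [Fin.mk.injEq] at this
    rw [Nat.mod_eq_of_lt hu, Nat.mod_eq_of_lt hv] at this
    exact this
  refine ⟨fun k => if k = n - 1 then g 3 else g (Helper814.Thue.F k), ?_, ?_⟩
  · intro k _
    show (if k = n - 1 then g 3 else g (Helper814.Thue.F k)) ∈ A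
    split_ifs <;> exact fmem _
  · intro t a ht htn ha
    by_cases hreach : n ≤ a + 2 * t
    · -- the window contains n - 1
      obtain ⟨j, hj⟩ : ∃ j, j = n - 1 - a := ⟨_, rfl⟩
      by_cases hjt : j < t
      · refine ⟨j, hjt, ?_⟩
        have e1 : (a + j) % n = n - 1 := by
          rw [Nat.mod_eq_of_lt (by omega)]; omega
        have e2 : (a + j + t) % n = t - 1 := by
          rw [Nat.mod_eq_sub_mod (by omega), Nat.mod_eq_of_lt (by omega)]; omega
        rw [e1, e2]
        simp only [if_true]
        rw [if_neg (by omega)]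
        intro h
        have h3 := Helper814.Thue.F_lt (t - 1)
        have := ginj 3 _ (by norm_num) (by omega) h
        omega
      · refine ⟨j - t, by omega, ?_⟩
        have e1 : (a + (j - t) + t) % n = n - 1 := by
          rw [Nat.mod_eq_of_lt (by omega)]; omega
        have e2 : (a + (j - t)) % n = n - 1 - t := by
          rw [Nat.mod_eq_of_lt (by omega)]; omega
        rw [e1, e2]
        simp only [if_true]
        rw [if_neg (by omega)]
        intro h
        have h3 := Helper814.Thue.F_lt (n - 1 - t)
        have := ginj _ 3 (by omega) (by norm_num) h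
        omega
    · obtain ⟨i, hi, hne⟩ := Helper814.Thue.sqfree t (by omega) a
      refine ⟨i, hi, ?_⟩
      rw [Nat.mod_eq_of_lt (by omega), Nat.mod_eq_of_lt (by omega)]
      show (if a + i = n - 1 then g 3 else g (Helper814.Thue.F (a + i))) ≠
        (if a + i + t = n - 1 then g 3 else g (Helper814.Thue.F (a + i + t)))
      rw [if_neg (by omega), if_neg (by omega)]
      intro h
      have h3 := Helper814.Thue.F_lt (a + i)
      have h4 := Helper814.Thue.F_lt (a + i + t)
      have := ginj _ _ (by omega) (by omega) h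
      rw [show a + t + i = a + i + t by ring] at hne
      exact hne this

/-- the full statement for cyclic words -/
theorem cyc {n : ℕ} (L : ℕ → Finset ℕ) (hL : ∀ i, 4 ≤ (L i).card) :
    ∃ c : ℕ → ℕ, (∀ k < n, c k ∈ L k) ∧
      ∀ t a, 1 ≤ t → 2 * t ≤ n → a < n → ∃ i < t, c ((a + i) % n) ≠ c ((a + i + t) % n) := by
  by_cases hn4 : n ≤ 4
  · exact rainbow hn4 L hL
  -- shrink the lists
  have hsub : ∀ i, ∃ B : Finset ℕ, B ⊆ L i ∧ B.card = 4 := fun i => by
    obtain ⟨B, h1, h2⟩ := exists_subset_card_eq (hL i)
    exact ⟨B, h1, h2⟩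
  choose B hBL hB4 using hsub
  set M : ℕ → Finset ℕ := fun i => B (i % n) with hM
  by_cases hall : ∀ k, M k = M (k + 1)
  · have h0 : ∀ k, M k = M 0 := by
      intro k
      induction k with
      | zero => rfl
      | succ k ih => rw [← hall k, ih]
    obtain ⟨c, hc, hc'⟩ := identical (n := n) (by omega) (M 0) (by rw [hM]; exact (hB4 _).ge)
    refine ⟨c, fun k hk => ?_, hc'⟩
    have h1 := hc k hk
    rw [← h0 k] at h1
    have h2 : M k = B k := by simp only [hM]; rw [Nat.mod_eq_of_lt hk]
    rw [h2] at h1
    exact hBL k h1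
  · push Not at hall
    obtain ⟨k, hk⟩ := hall
    have hMc : ∀ i, (M i).card = 4 := fun i => hB4 _
    have : ∃ z ∈ M (k + 1), z ∉ M k := by
      by_contra hcon
      push Not at hcon
      exact hk (eq_of_subset_of_card_le hcon (by rw [hMc, hMc])).symm
    obtain ⟨z, hz1, hz2⟩ := this
    have hper : ∀ i, M (i + n) = M i := by
      intro i; simp only [hM]; rw [Nat.add_mod_right]
    obtain ⟨c, hc, hc'⟩ := core5 (n := n) (by omega) (fun i => M (k + 1 + i)) (fun i => (hMc _).ge) z
      (by simpa using hz1) (by
        show z ∉ M (k + 1 + (n - 1))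
        rw [show k + 1 + (n - 1) = k + n by omega, hper]; exact hz2)
    -- rotate back
    obtain ⟨r, hr⟩ : ∃ r, r = (k + 1) % n := ⟨_, rfl⟩
    have hrn : r < n := by rw [hr]; exact Nat.mod_lt _ (by omega)
    refine ⟨fun v => c ((v + (n - r)) % n), fun v hv => ?_, ?_⟩
    · have h1 : c ((v + (n - r)) % n) ∈ M (k + 1 + (v + (n - r)) % n) :=
        hc ((v + (n - r)) % n) (Nat.mod_lt _ (by omega))
      have h2 : M (k + 1 + (v + (n - r)) % n) = B v := by
        simp only [hM]
        congr 1
        rw [Nat.add_mod, Nat.mod_mod, ← Nat.add_mod]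
        have e : k + 1 = n * ((k + 1) / n) + r := by rw [hr]; exact (Nat.div_add_mod _ _).symm
        rw [e, show n * ((k + 1) / n) + r + (v + (n - r)) = v + n * ((k + 1) / n + 1) by
          rw [mul_add, mul_one]; omega]
        rw [Nat.add_mul_mod_self_left, Nat.mod_eq_of_lt hv]
      rw [h2] at h1
      exact hBL v h1
    · intro t a ht htn ha
      obtain ⟨i, hi, hne⟩ := hc' t ((a + (n - r)) % n) ht htn (Nat.mod_lt _ (by omega))
      refine ⟨i, hi, ?_⟩
      show c (((a + i) % n + (n - r)) % n) ≠ c (((a + i + t) % n + (n - r)) % n)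
      rw [Nat.mod_add_mod, Nat.mod_add_mod]
      rw [show (a + (n - r)) % n + i + t = (a + (n - r)) % n + (i + t) by ring, Nat.mod_add_mod,
        Nat.mod_add_mod] at hne
      rw [show a + i + (n - r) = a + (n - r) + i by ring,
        show a + i + t + (n - r) = a + (n - r) + (i + t) by ring]
      exact hne

def sc (n u v : ℕ) : Prop := v = u + 1 ∨ (v = 0 ∧ u + 1 = n)

lemma adj_sc {n : ℕ} (u v : Fin n) (h : (SimpleGraph.cycleGraph n).Adj u v) :
    sc n u.val v.val ∨ sc n v.val u.val := by
  rw [SimpleGraph.cycleGraph_adj'] at h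
  have hu := u.isLt
  have hv := v.isLt
  unfold sc
  rcases h with h | h
  · rw [Fin.sub_def] at h
    simp only at h
    by_cases h1 : n - v.val + u.val < n
    · rw [Nat.mod_eq_of_lt h1] at h; omega
    · rw [Nat.mod_eq_sub_mod (by omega), Nat.mod_eq_of_lt (by omega)] at h; omega
  · rw [Fin.sub_def] at h
    simp only at h
    by_cases h1 : n - u.val + v.val < n
    · rw [Nat.mod_eq_of_lt h1] at h; omega
    · rw [Nat.mod_eq_sub_mod (by omega), Nat.mod_eq_of_lt (by omega)] at h; omega

lemma chain {n m : ℕ} (g : ℕ → ℕ) (hg : ∀ j < m, g j < n)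
    (hs : ∀ j, j + 1 < m → sc n (g j) (g (j + 1))) : ∀ j < m, g j = (g 0 + j) % n := by
  intro j
  induction j with
  | zero => intro h; rw [add_zero, Nat.mod_eq_of_lt (hg 0 h)]
  | succ j ih =>
    intro h
    have h1 := ih (by omega)
    have h2 := hs j h
    have h3 := hg (j + 1) h
    have h4 := hg j (by omega)
    rw [← add_assoc, ← Nat.mod_add_mod, ← h1]
    rcases h2 with h2 | ⟨h2, h5⟩
    · rw [← h2, Nat.mod_eq_of_lt h3]
    · rw [h2, h5, Nat.mod_self]

/-- paths in the cycle run in one direction -/
lemma direction {n m : ℕ} (g : ℕ → ℕ) (hg : ∀ j < m, g j < n)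
    (hinj : ∀ i < m, ∀ j < m, g i = g j → i = j)
    (hadj : ∀ j, j + 1 < m → sc n (g j) (g (j + 1)) ∨ sc n (g (j + 1)) (g j)) :
    (∀ j, j + 1 < m → sc n (g j) (g (j + 1))) ∨ (∀ j, j + 1 < m → sc n (g (j + 1)) (g j)) := by
  by_cases hm : 1 < m
  swap
  · left; intro j hj; omega
  rcases hadj 0 (by omega) with h0 | h0
  · left
    intro j
    induction j with
    | zero => intro _; exact h0
    | succ j ih =>
      intro hj
      have h1 := ih (by omega)
      rcases hadj (j + 1) hj with h2 | h2
      · exact h2
      · exfalso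
        have g1 := hg j (by omega)
        have g2 := hg (j + 1) (by omega)
        have g3 := hg (j + 1 + 1) (by omega)
        have : g j = g (j + 1 + 1) := by
          unfold sc at h1 h2; omega
        have := hinj j (by omega) (j + 1 + 1) (by omega) this
        omega
  · right
    intro j
    induction j with
    | zero => intro _; exact h0
    | succ j ih =>
      intro hj
      have h1 := ih (by omega)
      rcases hadj (j + 1) hj with h2 | h2
      · exfalso
        have g1 := hg j (by omega)
        have g2 := hg (j + 1) (by omega)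
        have g3 := hg (j + 1 + 1) (by omega)
        have : g j = g (j + 1 + 1) := by
          unfold sc at h1 h2; omega
        have := hinj j (by omega) (j + 1 + 1) (by omega) this
        omega
      · exact h2

theorem main (n : ℕ) (hn : 3 ≤ n) (L : Fin n → Finset ℕ) (hL : ∀ v, 4 ≤ (L v).card) :
    ∃ c : Fin n → ℕ, (∀ v, c v ∈ L v) ∧
      ∀ (u v : Fin n) (p : (SimpleGraph.cycleGraph n).Walk u v),
        p.IsPath → Even p.support.length →
          (p.support.map c).take (p.support.length / 2) ≠
            (p.support.map c).drop (p.support.length / 2) := by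
  have hn0 : 0 < n := by omega
  obtain ⟨c, hc, hc'⟩ := cyc (n := n) (fun i => L ⟨i % n, Nat.mod_lt _ hn0⟩) (fun i => hL _)
  refine ⟨fun v => c v.val, fun v => ?_, ?_⟩
  · have := hc v.val v.isLt
    simp only [Nat.mod_eq_of_lt v.isLt] at this
    exact this
  · intro u v p hp hev heq
    obtain ⟨t, ht⟩ := hev
    have hlen := p.length_support
    have ht1 : 1 ≤ t := by omega
    have htn : 2 * t ≤ n := by
      have := hp.length_lt
      rw [Fintype.card_fin] at this
      omega
    -- pointwise equality
    have hpt : ∀ i < t, c (p.getVert i).val = c (p.getVert (i + t)).val := by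
      intro i hi
      have h2 : p.support.length / 2 = t := by omega
      rw [h2] at heq
      have h3 : (List.take t (p.support.map fun v => c v.val))[i]? =
          (List.drop t (p.support.map fun v => c v.val))[i]? := congrArg (fun l => l[i]?) heq
      rw [List.getElem?_take_of_lt hi, List.getElem?_drop, List.getElem?_map, List.getElem?_map,
        ← SimpleGraph.Walk.getVert_eq_support_getElem? p (by omega),
        ← SimpleGraph.Walk.getVert_eq_support_getElem? p (by omega)] at h3
      simp only [Option.map_some, Option.some.injEq] at h3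
      rw [add_comm i t]; exact h3
    set g : ℕ → ℕ := fun j => (p.getVert j).val with hg
    have hglt : ∀ j < 2 * t, g j < n := fun j _ => (p.getVert j).isLt
    have hginj : ∀ i < 2 * t, ∀ j < 2 * t, g i = g j → i = j := by
      intro i hi j hj h
      exact hp.getVert_injOn (by simp only [Set.mem_ofPred_eq]; omega)
        (by simp only [Set.mem_ofPred_eq]; omega) (Fin.ext h)
    have hgadj : ∀ j, j + 1 < 2 * t → sc n (g j) (g (j + 1)) ∨ sc n (g (j + 1)) (g j) := by
      intro j hj
      exact adj_sc _ _ (p.adj_getVert_succ (by omega))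
    rcases direction g hglt hginj hgadj with hd | hd
    · have hch := chain g hglt hd
      obtain ⟨i, hi, hne⟩ := hc' t (g 0) ht1 htn (hglt 0 (by omega))
      apply hne
      have h1 := hch i (by omega)
      have h2 := hch (i + t) (by omega)
      rw [← h1, add_assoc, ← h2]
      exact hpt i hi
    · have hch := chain (m := 2 * t) (fun j => g (2 * t - 1 - j)) (fun j hj => hglt (2 * t - 1 - j) (by omega)) (fun j hj => by
        have := hd (2 * t - 1 - (j + 1)) (by omega)
        rw [show 2 * t - 1 - (j + 1) + 1 = 2 * t - 1 - j by omega] at this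
        exact this)
      obtain ⟨i, hi, hne⟩ := hc' t (g (2 * t - 1 - 0)) ht1 htn (hglt (2 * t - 1 - 0) (by omega))
      apply hne
      have h1 : g (2 * t - 1 - i) = (g (2 * t - 1 - 0) + i) % n := hch i (by omega)
      have h2 : g (2 * t - 1 - (i + t)) = (g (2 * t - 1 - 0) + (i + t)) % n :=
        hch (i + t) (by omega)
      rw [← h1, add_assoc, ← h2]
      have := hpt (t - 1 - i) (by omega)
      rw [show t - 1 - i + t = 2 * t - 1 - i by omega] at this
      rw [show 2 * t - 1 - (i + t) = t - 1 - i by omega]
      exact this.symm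

end
end Pool.Agent.H565.Cyc
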