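import Pool.Agent.H565.Cyc.Core

set_option autoImplicit false

namespace Pool.Agent.H565.Cyc
open Finset
open scoped Classical

noncomputable section

variable {ℒ : ℕ → Finset ℕ}

structure Setup (ℒ : ℕ → Finset ℕ) (R : ℕ) (q : ℕ → ℕ) : Prop where
  hR2 : 2 ≤ R
  hR6 : R ≤ 6
  hQ : ∀ i ≤ R, ℒ i = {q i}
  hL : ∀ i, R < i → 4 ≤ (ℒ i).card
  q0 : ∀ i, 1 ≤ i → i ≤ R → q i ≠ q 0
  q1 : ∀ t, 1 ≤ t → t ≤ 3 → t ≤ R → q R ≠ q (R - t)
  q2 : ∀ t, 1 ≤ t → t + 1 ≤ R → q R = q (R - t) → q (R - 1) = q (R - 1 - t) → False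
  qsf : ∀ t a, 1 ≤ t → a + 2 * t ≤ R + 1 → ∃ i < t, q (a + i) ≠ q (a + t + i)

lemma sum_ind_le (A : Finset ℕ) (p : ℕ) : ∑ x ∈ A, (if x = p then (1 : ℚ) else 0) ≤ 1 := by
  rw [sum_ite_eq']; split_ifs <;> norm_num

lemma list_sum (A : Finset ℕ) (hA : 4 ≤ A.card) (p q r : ℕ) :
    30 / 11 * (if p = r then (8 / 11 : ℚ) else 1) ≤
      ∑ x ∈ A, (if x ≠ p ∧ ¬ (x = q ∧ p = r) then (if x = q then (8 / 11 : ℚ) else 1) else 0) := by
  have hA' : (4 : ℚ) ≤ A.card := by exact_mod_cast hA
  have h1 := sum_ind_le A p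
  have h2 := sum_ind_le A q
  by_cases h : p = r
  · rw [if_pos h]
    have key : ∀ x ∈ A, (1 : ℚ) - (if x = p then (1 : ℚ) else 0) - (if x = q then (1 : ℚ) else 0) ≤
        (if x ≠ p ∧ ¬ (x = q ∧ p = r) then (if x = q then (8 / 11 : ℚ) else 1) else 0) := by
      intro x _
      by_cases hp : x = p <;> by_cases hq : x = q <;> simp [hp, hq, h] <;> split_ifs <;> norm_num
    have := sum_le_sum key
    rw [sum_sub_distrib, sum_sub_distrib, sum_const, nsmul_eq_mul, mul_one] at this
    linarith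
  · rw [if_neg h]
    have key : ∀ x ∈ A, (1 : ℚ) - (if x = p then (1 : ℚ) else 0) -
        3 / 11 * (if x = q then (1 : ℚ) else 0) ≤
        (if x ≠ p ∧ ¬ (x = q ∧ p = r) then (if x = q then (8 / 11 : ℚ) else 1) else 0) := by
      intro x _
      by_cases hp : x = p <;> by_cases hq : x = q <;> simp [hp, hq, h] <;> split_ifs <;> norm_num
    have := sum_le_sum key
    rw [sum_sub_distrib, sum_sub_distrib, sum_const, nsmul_eq_mul, mul_one, ← mul_sum] at this
    linarith

def sok (k : ℕ) (c : ℕ → ℕ) : Prop :=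
  c k ≠ c (k - 1) ∧ ¬ (c k = c (k - 2) ∧ c (k - 1) = c (k - 3))

lemma short_grow {k : ℕ} (hk : 3 ≤ k) (hL : 4 ≤ (ℒ k).card) :
    30 / 11 * S ℒ k ≤ ∑ c ∈ U ℒ k, (if sok k c then wt (k + 1) c else 0) := by
  rw [sum_U, S, mul_sum]
  refine sum_le_sum fun w _ => ?_
  refine (list_sum (ℒ k) hL (w (k - 1)) (w (k - 2)) (w (k - 3))).trans (le_of_eq ?_)
  refine sum_congr rfl fun x _ => ?_
  have e1 : Function.update w k x (k - 1) = w (k - 1) := Function.update_of_ne (by omega) _ _
  have e2 : Function.update w k x (k - 2) = w (k - 2) := Function.update_of_ne (by omega) _ _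
  have e3 : Function.update w k x (k - 3) = w (k - 3) := Function.update_of_ne (by omega) _ _
  have e5 : Function.update w k x k = x := Function.update_self _ _ _
  have e6 : k + 1 - 1 = k := by omega
  have e7 : k + 1 - 3 = k - 2 := by omega
  simp only [sok, wt, e6, e7, e1, e2, e3, e5]

def Bad (k j : ℕ) (c : ℕ → ℕ) : Prop :=
  3 ≤ k + 1 - j ∧ k + 1 ≤ 2 * j ∧ ∀ i < k + 1 - j, c (2 * j - (k + 1) + i) = c (j + i)

lemma sum_ite_filter (s : Finset (ℕ → ℕ)) (P : (ℕ → ℕ) → Prop) (f : (ℕ → ℕ) → ℚ) :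
    ∑ c ∈ s, (if P c then f c else 0) = ∑ c ∈ s.filter P, f c := by
  rw [sum_filter]

lemma trunc_U {m j : ℕ} {c : ℕ → ℕ} (hc : c ∈ U ℒ m) (hj : j ≤ m) : trunc j c ∈ W ℒ j := by
  rw [mem_U] at hc
  exact trunc_mem (fun k hk => hc.1.1 k (by omega)) (fun p hp => hc.2 p (by omega))

lemma bad_bound (k j : ℕ) (hj : j ≤ k) :
    ∑ c ∈ U ℒ k, (if Bad k j c then wt (k + 1) c else 0) ≤ S ℒ j := by
  rw [sum_ite_filter]
  refine inj_bound (m := k + 1) (j := j) (fun i => i - (k + 1 - j)) ?_ ?_ ?_ _ _ ?_ ?_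
  · intro c hc i hi
    rw [mem_filter, mem_U] at hc
    exact hc.1.1.2 i hi
  · intro c hc
    rw [mem_filter] at hc
    exact trunc_U hc.1 hj
  · intro c hc i h1 h2
    rw [mem_filter] at hc
    obtain ⟨_, b1, b2, b3⟩ := hc
    refine ⟨by show i - (k + 1 - j) < j; omega, ?_⟩
    have := b3 (i - j) (by omega)
    have e1 : 2 * j - (k + 1) + (i - j) = i - (k + 1 - j) := by omega
    have e2 : j + (i - j) = i := by omega
    rw [e1, e2] at this
    exact this.symm
  · intro c hc
    rw [mem_filter] at hc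
    obtain ⟨_, b1, b2, b3⟩ := hc
    apply le_of_eq
    have h1 := b3 (k - j) (by omega)
    have h2 := b3 (k - 2 - j) (by omega)
    have e1 : 2 * j - (k + 1) + (k - j) = j - 1 := by omega
    have e2 : j + (k - j) = k := by omega
    have e3 : 2 * j - (k + 1) + (k - 2 - j) = j - 3 := by omega
    have e4 : j + (k - 2 - j) = k - 2 := by omega
    rw [e1, e2] at h1
    rw [e3, e4] at h2
    have e5 : k + 1 - 1 = k := by omega
    have e6 : k + 1 - 3 = k - 2 := by omega
    simp only [wt, trunc, e5, e6, if_pos (show j - 1 < j by omega), if_pos (show j - 3 < j by omega),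
      h1, h2]
  · intro v _; exact wt_nonneg _ _

lemma bad_bound' (k j : ℕ) (hj : j ≤ k) :
    ∑ c ∈ U ℒ k, (if Bad k j c then wt (k + 1) c else 0) ≤ N ℒ j := by
  refine (bad_bound k j hj).trans ?_
  rw [S, N_eq]
  exact sum_le_sum fun _ _ => wt_le_one _ _

def Rec (k : ℕ) (c : ℕ → ℕ) : Prop := 10 ≤ k ∧ ∀ i < 4, c (k - 3 + i) = c i

lemma rec_bound (k : ℕ) (hk : 10 ≤ k) :
    ∑ c ∈ U ℒ k, (if Rec k c then wt (k + 1) c else 0) ≤ N ℒ (k - 3) := by
  rw [sum_ite_filter, N_eq]
  refine inj_bound (m := k + 1) (j := k - 3) (fun i => i - (k - 3)) ?_ ?_ ?_ _ _ ?_ ?_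
  · intro c hc i hi
    rw [mem_filter, mem_U] at hc
    exact hc.1.1.2 i hi
  · intro c hc
    rw [mem_filter] at hc
    exact trunc_U hc.1 (by omega)
  · intro c hc i h1 h2
    rw [mem_filter] at hc
    obtain ⟨_, b1, b2⟩ := hc
    refine ⟨by show i - (k - 3) < k - 3; omega, ?_⟩
    have := b2 (i - (k - 3)) (by omega)
    have e1 : k - 3 + (i - (k - 3)) = i := by omega
    rwa [e1] at this
  · intro c _; exact wt_le_one _ _
  · intro v _; norm_num

variable {R : ℕ} {q : ℕ → ℕ}

lemma Setup.eq_q (hS : Setup ℒ R q) {m : ℕ} {c : ℕ → ℕ} (hc : ∀ k < m, c k ∈ ℒ k) {i : ℕ}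
    (hi : i ≤ R) (him : i < m) : c i = q i := by
  have := hc i him
  rw [hS.hQ i hi, mem_singleton] at this
  exact this

lemma Setup.N_le_one (hS : Setup ℒ R q) {j : ℕ} (hj : j ≤ R + 1) : N ℒ j ≤ 1 := by
  have : (W ℒ j).card ≤ 1 := by
    rw [card_le_one]
    intro a ha b hb
    rw [mem_W] at ha hb
    funext k
    by_cases hk : k < j
    · rw [hS.eq_q ha.1.1 (by omega) hk, hS.eq_q hb.1.1 (by omega) hk]
    · rw [ha.1.2 k (by omega), hb.1.2 k (by omega)]
  unfold N
  exact_mod_cast this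

lemma Setup.Q_mem (hS : Setup ℒ R q) : trunc (R + 1) q ∈ W ℒ (R + 1) := by
  have h6 := hS.hR6
  refine trunc_mem (fun k hk => ?_) (fun p hp => ⟨fun t a ht ha => ?_, fun h => by omega⟩)
  · rw [hS.hQ k (by omega)]; exact mem_singleton_self _
  · exact hS.qsf t a ht (by omega)

lemma Setup.W_base (hS : Setup ℒ R q) : W ℒ (R + 1) = {trunc (R + 1) q} := by
  apply eq_singleton_iff_unique_mem.mpr
  refine ⟨hS.Q_mem, fun b hb => ?_⟩
  rw [mem_W] at hb
  funext k
  by_cases hk : k < R + 1
  · rw [hS.eq_q hb.1.1 (by omega) hk]; simp [trunc, hk]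
  · rw [hb.1.2 k (by omega)]; simp [trunc, hk]

lemma Setup.N_base (hS : Setup ℒ R q) : N ℒ (R + 1) = 1 := by
  unfold N; rw [hS.W_base]; simp

lemma Setup.S_base (hS : Setup ℒ R q) : S ℒ (R + 1) = 1 := by
  have h2 := hS.hR2
  unfold S; rw [hS.W_base, sum_singleton]
  have e : R + 1 - 3 = R - 2 := by omega
  have := hS.q1 2 (by norm_num) (by norm_num) h2
  simp [wt, trunc, e, show R - 2 < R + 1 by omega, this]

lemma Setup.grow (hS : Setup ℒ R q) {k : ℕ} (hk : R + 1 ≤ k) :
    30 / 11 * S ℒ k ≤ S ℒ (k + 1) + ∑ j ∈ Ico (R + 1) (k - 1), S ℒ j +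
      (if R + 3 ≤ k then 1 else 0) + (if 10 ≤ k then N ℒ (k - 3) else 0) := by
  have h2 := hS.hR2
  have h0 := short_grow (ℒ := ℒ) (k := k) (by omega) (hS.hL k (by omega))
  have h1 : ∑ c ∈ U ℒ k, (if sok k c then wt (k + 1) c else 0) ≤
      ∑ c ∈ U ℒ k, ((if valid k c then wt (k + 1) c else 0) +
        ∑ j ∈ Ico (R + 1) (k - 1), (if Bad k j c then wt (k + 1) c else 0) +
        (if R + 3 ≤ k ∧ Bad k R c then wt (k + 1) c else 0) +
        (if Rec k c then wt (k + 1) c else 0)) := by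
    refine sum_le_sum fun c hc => ?_
    have hw := wt_nonneg (k + 1) c
    have hcU := mem_U.mp hc
    have hs : 0 ≤ ∑ j ∈ Ico (R + 1) (k - 1), (if Bad k j c then wt (k + 1) c else 0) :=
      sum_nonneg fun j _ => by split_ifs <;> [exact hw; exact le_rfl]
    have hsp : 0 ≤ (if R + 3 ≤ k ∧ Bad k R c then wt (k + 1) c else 0) := by
      split_ifs <;> [exact hw; exact le_rfl]
    have hrc : 0 ≤ (if Rec k c then wt (k + 1) c else 0) := by
      split_ifs <;> [exact hw; exact le_rfl]
    by_cases hsok : sok k c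
    swap
    · rw [if_neg hsok]
      have : 0 ≤ (if valid k c then wt (k + 1) c else 0) := by
        split_ifs <;> [exact hw; exact le_rfl]
      linarith
    rw [if_pos hsok]
    by_cases hv : valid k c
    · rw [if_pos hv]; linarith
    rw [if_neg hv]
    unfold valid at hv
    rw [not_and_or] at hv
    rcases hv with hv | hv
    · push Not at hv
      obtain ⟨t, a, ht, ha, hsq⟩ := hv
      have t3 : 3 ≤ t := by
        by_contra hlt
        have : t = 1 ∨ t = 2 := by omega
        rcases this with rfl | rfl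
        · have := hsq 0 (by norm_num)
          apply hsok.1
          have e1 : a + 0 = k - 1 := by omega
          have e2 : a + 1 + 0 = k := by omega
          rw [e1, e2] at this; exact this.symm
        · apply hsok.2
          have h3 := hsq 0 (by norm_num)
          have h4 := hsq 1 (by norm_num)
          have e1 : a + 0 = k - 3 := by omega
          have e2 : a + 2 + 0 = k - 1 := by omega
          have e3 : a + 1 = k - 2 := by omega
          have e4 : a + 2 + 1 = k := by omega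
          rw [e1, e2] at h3
          rw [e3, e4] at h4
          exact ⟨h4.symm, h3.symm⟩
      have hbad : Bad k (a + t) c := by
        refine ⟨by omega, by omega, fun i hi => ?_⟩
        have e1 : 2 * (a + t) - (k + 1) + i = a + i := by omega
        rw [e1]; exact hsq i (by omega)
      rcases lt_trichotomy (a + t) R with hlt | heq | hgt
      · exfalso
        have hRk : R < k + 1 := by omega
        have g1 := hsq (R - (a + t)) (by omega)
        have g2 := hsq (R - 1 - (a + t)) (by omega)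
        have e1 : a + (R - (a + t)) = R - t := by omega
        have e2 : a + t + (R - (a + t)) = R := by omega
        have e3 : a + (R - 1 - (a + t)) = R - 1 - t := by omega
        have e4 : a + t + (R - 1 - (a + t)) = R - 1 := by omega
        rw [e1, e2, hS.eq_q hcU.1.1 (by omega) (by omega), hS.eq_q hcU.1.1 (by omega) (by omega)] at g1
        rw [e3, e4, hS.eq_q hcU.1.1 (by omega) (by omega), hS.eq_q hcU.1.1 (by omega) (by omega)] at g2
        exact hS.q2 t ht (by omega) g1.symm g2.symm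
      · have hR3 : R + 3 ≤ k := by
          by_contra hlt
          have g1 := hsq 0 (by omega)
          have e1 : a + 0 = R - t := by omega
          have e2 : a + t + 0 = R := by omega
          rw [e1, e2, hS.eq_q hcU.1.1 (by omega) (by omega),
            hS.eq_q hcU.1.1 (by omega) (by omega)] at g1
          exact hS.q1 t ht (by omega) (by omega) g1.symm
        rw [heq] at hbad
        rw [if_pos ⟨hR3, hbad⟩]
        linarith
      · have hmem : a + t ∈ Ico (R + 1) (k - 1) := by rw [mem_Ico]; omega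
        have : wt (k + 1) c ≤ ∑ j ∈ Ico (R + 1) (k - 1), (if Bad k j c then wt (k + 1) c else 0) := by
          have := single_le_sum (f := fun j => (if Bad k j c then wt (k + 1) c else (0 : ℚ)))
            (fun j _ => by
              show (0 : ℚ) ≤ if Bad k j c then wt (k + 1) c else 0
              split_ifs <;> [exact hw; exact le_rfl]) hmem
          simpa only [if_pos hbad] using this
        linarith
    · push Not at hv
      have : Rec k c := ⟨hv.1, hv.2⟩
      rw [if_pos this]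
      linarith
  rw [sum_add_distrib, sum_add_distrib, sum_add_distrib, sum_comm] at h1
  have h3 : ∑ c ∈ U ℒ k, (if valid k c then wt (k + 1) c else 0) = S ℒ (k + 1) := by
    rw [sum_ite_filter, S, W_succ]
  have h4 : ∑ j ∈ Ico (R + 1) (k - 1), ∑ c ∈ U ℒ k, (if Bad k j c then wt (k + 1) c else 0) ≤
      ∑ j ∈ Ico (R + 1) (k - 1), S ℒ j := by
    refine sum_le_sum fun j hj => ?_
    rw [mem_Ico] at hj
    exact bad_bound k j (by omega)
  have h5 : ∑ c ∈ U ℒ k, (if R + 3 ≤ k ∧ Bad k R c then wt (k + 1) c else 0) ≤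
      (if R + 3 ≤ k then 1 else 0) := by
    by_cases h : R + 3 ≤ k
    · simp only [h, true_and, if_true]
      exact (bad_bound' k R (by omega)).trans (hS.N_le_one (by omega))
    · simp [h]
  have h6 : ∑ c ∈ U ℒ k, (if Rec k c then wt (k + 1) c else 0) ≤
      (if 10 ≤ k then N ℒ (k - 3) else 0) := by
    by_cases h : 10 ≤ k
    · rw [if_pos h]; exact rec_bound k h
    · rw [if_neg h]
      apply le_of_eq
      apply sum_eq_zero
      intro c _
      rw [if_neg (fun hr => h hr.1)]
  linarith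

end
end Pool.Agent.H565.Cyc
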