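import Pool.Agent.H565.Cyc.Close

set_option autoImplicit false

namespace Pool.Agent.H565.Cyc
open Finset
open scoped Classical

noncomputable section

lemma avoid2 (A : Finset ℕ) (hA : 3 ≤ A.card) (x y : ℕ) : ∃ z ∈ A, z ≠ x ∧ z ≠ y := by
  have h : 0 < ((A.erase x).erase y).card := by
    have h1 := Finset.pred_card_le_card_erase (s := A) (a := x)
    have h2 := Finset.pred_card_le_card_erase (s := A.erase x) (a := y)
    omega
  obtain ⟨z, hz⟩ := Finset.card_pos.mp h
  rw [mem_erase, mem_erase] at hz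
  exact ⟨z, hz.2.2, hz.2.1, hz.1⟩

lemma greedy (E : ℕ → Finset ℕ) (hE : ∀ j, 3 ≤ (E j).card) :
    ∃ e : ℕ → ℕ, (∀ j < 6, e j ∈ E j) ∧ e 1 ≠ e 0 ∧ e 2 ≠ e 1 ∧ e 2 ≠ e 0 ∧ e 3 ≠ e 2 ∧ e 3 ≠ e 0 ∧
      e 4 ≠ e 3 ∧ (e 3 = e 1 → e 4 ≠ e 2) ∧ e 5 ≠ e 4 ∧ (e 4 = e 2 → e 5 ≠ e 3) ∧
      (e 4 = e 0 → e 5 ≠ e 1) := by
  obtain ⟨e0, m0, _⟩ := avoid2 (E 0) (hE 0) 0 0
  obtain ⟨e1, m1, h10, _⟩ := avoid2 (E 1) (hE 1) e0 e0
  obtain ⟨e2, m2, h21, h20⟩ := avoid2 (E 2) (hE 2) e1 e0
  obtain ⟨e3, m3, h32, h30⟩ := avoid2 (E 3) (hE 3) e2 e0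
  obtain ⟨e4, m4, h43, h4x⟩ := avoid2 (E 4) (hE 4) e3 (if e3 = e1 then e2 else e3)
  obtain ⟨e5, m5, h54, h5x⟩ := avoid2 (E 5) (hE 5) e4 (if e4 = e2 then e3 else if e4 = e0 then e1 else e4)
  refine ⟨fun j => if j = 0 then e0 else if j = 1 then e1 else if j = 2 then e2 else
    if j = 3 then e3 else if j = 4 then e4 else e5, ?_, ?_⟩
  · intro j hj
    interval_cases j <;> simpa
  · refine ⟨by simpa using h10, by simpa using h21, by simpa using h20, by simpa using h32,
      by simpa using h30, by simpa using h43, ?_, by simpa using h54, ?_, ?_⟩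
    · intro h
      simp at h
      simp [h] at h4x
      simpa using h4x
    · intro h
      simp at h
      simp [h] at h5x
      simpa using h5x
    · intro h
      simp at h
      have : ¬ e4 = e2 := by rw [h]; exact fun h' => h20 h'.symm
      simp [h, show ¬ e0 = e2 from fun h' => h20 h'.symm] at h5x
      simpa using h5x

/-- existence of a good prefix -/
lemma exists_prefix (L : ℕ → Finset ℕ) (hL : ∀ i, 4 ≤ (L i).card) (z : ℕ) (R : ℕ) (hR2 : 2 ≤ R)
    (hR6 : R ≤ 6) : ∃ q : ℕ → ℕ, q 0 = z ∧ (∀ i, 1 ≤ i → i ≤ R → q i ∈ L i) ∧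
      Setup (fun i => if i ≤ R then {q i} else L i) R q := by
  obtain ⟨e, he, h10, h21, h20, h32, h30, h43, h42, h54, h53, h51⟩ :=
    greedy (fun j => (L (R - j)).erase z) (fun j => by
      have h1 := Finset.pred_card_le_card_erase (s := L (R - j)) (a := z)
      have h2 := hL (R - j)
      show 3 ≤ ((L (R - j)).erase z).card
      omega)
  have hez : ∀ j < 6, e j ≠ z := fun j hj => (mem_erase.mp (he j hj)).1
  have heL : ∀ j < 6, e j ∈ L (R - j) := fun j hj => (mem_erase.mp (he j hj)).2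
  have z0 := hez 0 (by norm_num)
  have z1 := hez 1 (by norm_num)
  have z2 := hez 2 (by norm_num)
  have z3 := hez 3 (by norm_num)
  have z4 := hez 4 (by norm_num)
  have z5 := hez 5 (by norm_num)
  set q : ℕ → ℕ := fun i => if i = 0 then z else e (R - i) with hq
  have q00 : q 0 = z := by simp [hq]
  have qi : ∀ i, 1 ≤ i → q i = e (R - i) := by
    intro i hi; simp only [hq]; rw [if_neg (by omega)]
  refine ⟨q, q00, ?_, ?_⟩
  · intro i h1 h2
    rw [qi i h1]
    have := heL (R - i) (by omega)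
    rwa [show R - (R - i) = i by omega] at this
  · refine ⟨hR2, hR6, ?_, ?_, ?_, ?_, ?_, ?_⟩
    · intro i hi; simp [hi]
    · intro i hi
      show 4 ≤ (if i ≤ R then {q i} else L i : Finset ℕ).card
      rw [if_neg (by omega)]; exact hL i
    · intro i h1 h2
      rw [q00, qi i h1]; exact hez _ (by omega)
    · intro t h1 h3 hR
      rw [qi R (by omega), Nat.sub_self]
      rcases Nat.eq_or_lt_of_le hR with h | h
      · rw [h, Nat.sub_self, q00]; exact z0
      · rw [qi (R - t) (by omega), show R - (R - t) = t by omega]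
        interval_cases t
        · exact h10.symm
        · exact h20.symm
        · exact h30.symm
    · intro t h1 h3 ha hb
      rw [qi R (by omega), qi (R - t) (by omega), Nat.sub_self, show R - (R - t) = t by omega] at ha
      rw [qi (R - 1) (by omega), show R - (R - 1) = 1 by omega] at hb
      by_cases hc : R - 1 - t = 0
      · rw [hc, q00] at hb; exact z1 hb
      · rw [qi _ (by omega), show R - (R - 1 - t) = t + 1 by omega] at hb
        have ht : t ≤ 4 := by omega
        interval_cases t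
        · exact h10 ha.symm
        · exact h20 ha.symm
        · exact h30 ha.symm
        · exact h51 ha.symm hb.symm
    · intro t a ht hta
      rcases Nat.eq_zero_or_pos a with h | h
      · subst h
        refine ⟨0, by omega, ?_⟩
        rw [show 0 + 0 = 0 by rfl, q00, show 0 + t + 0 = t by omega, qi t ht]
        exact (hez _ (by omega)).symm
      · have ht3 : t ≤ 3 := by omega
        interval_cases t
        · refine ⟨0, by norm_num, ?_⟩
          rw [qi _ (by omega), qi _ (by omega)]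
          obtain ⟨j, hj⟩ : ∃ j, j = R - (a + 1 + 0) := ⟨_, rfl⟩
          rw [show R - (a + 0) = j + 1 by omega, ← hj]
          have : j ≤ 4 := by omega
          interval_cases j
          · exact h10
          · exact h21
          · exact h32
          · exact h43
          · exact h54
        · by_contra hcon
          push Not at hcon
          have g0 := hcon 0 (by norm_num)
          have g1 := hcon 1 (by norm_num)
          rw [qi _ (by omega), qi _ (by omega)] at g0 g1
          obtain ⟨j, hj⟩ : ∃ j, j = R - (a + 2 + 1) := ⟨_, rfl⟩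
          rw [show R - (a + 0) = j + 3 by omega, show R - (a + 2 + 0) = j + 1 by omega] at g0
          rw [show R - (a + 1) = j + 2 by omega, ← hj] at g1
          have : j ≤ 2 := by omega
          interval_cases j
          · exact h20 g1
          · exact h42 g1 g0
          · exact h53 g1 g0
        · refine ⟨2, by norm_num, ?_⟩
          rw [qi _ (by omega), qi _ (by omega)]
          rw [show R - (a + 2) = 3 by omega, show R - (a + 3 + 2) = 0 by omega]
          exact h30

/-- cycles with a colour in `L 0` missing from `L (n-1)` -/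
theorem core5 {n : ℕ} (hn : 5 ≤ n) (L : ℕ → Finset ℕ) (hL : ∀ i, 4 ≤ (L i).card) (z : ℕ)
    (hz : z ∈ L 0) (hz' : z ∉ L (n - 1)) :
    ∃ c : ℕ → ℕ, (∀ k < n, c k ∈ L k) ∧
      ∀ t a, 1 ≤ t → 2 * t ≤ n → a < n → ∃ i < t, c ((a + i) % n) ≠ c ((a + i + t) % n) := by
  obtain ⟨R, hR⟩ : ∃ R, (n ≤ 13 ∧ R = n / 2) ∨ (14 ≤ n ∧ R = 6) := by
    by_cases h : n ≤ 13
    · exact ⟨n / 2, Or.inl ⟨h, rfl⟩⟩
    · exact ⟨6, Or.inr ⟨by omega, rfl⟩⟩
  have hR2 : 2 ≤ R := by rcases hR with h | h <;> omega
  have hR6 : R ≤ 6 := by rcases hR with h | h <;> omega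
  have hRn : R + 3 ≤ n := by rcases hR with h | h <;> omega
  obtain ⟨q, q0, qL, hS⟩ := exists_prefix L hL z R hR2 hR6
  obtain ⟨c, hc, hc'⟩ := hS.close hn hR (by
    show q 0 ∉ (if n - 1 ≤ R then {q (n - 1)} else L (n - 1) : Finset ℕ)
    rw [if_neg (by omega), q0]; exact hz')
  refine ⟨c, fun k hk => ?_, hc'⟩
  have this : c k ∈ (if k ≤ R then {q k} else L k : Finset ℕ) := hc k hk
  by_cases h : k ≤ R
  · rw [if_pos h, mem_singleton] at this
    rw [this]
    rcases Nat.eq_zero_or_pos k with h0 | h0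
    · subst h0; rw [q0]; exact hz
    · exact qL k h0 h
  · rw [if_neg h] at this; exact this

/-- small cycles: rainbow colouring -/
theorem rainbow {n : ℕ} (hn : n ≤ 4) (L : ℕ → Finset ℕ) (hL : ∀ i, 4 ≤ (L i).card) :
    ∃ c : ℕ → ℕ, (∀ k < n, c k ∈ L k) ∧
      ∀ t a, 1 ≤ t → 2 * t ≤ n → a < n → ∃ i < t, c ((a + i) % n) ≠ c ((a + i + t) % n) := by
  have pick : ∀ (A : Finset ℕ), 4 ≤ A.card → ∀ x y w : ℕ, ∃ z ∈ A, z ≠ x ∧ z ≠ y ∧ z ≠ w := by
    intro A hA x y w
    have h : 0 < (((A.erase x).erase y).erase w).card := by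
      have h1 := Finset.pred_card_le_card_erase (s := A) (a := x)
      have h2 := Finset.pred_card_le_card_erase (s := A.erase x) (a := y)
      have h3 := Finset.pred_card_le_card_erase (s := (A.erase x).erase y) (a := w)
      omega
    obtain ⟨z, hz⟩ := Finset.card_pos.mp h
    simp only [mem_erase] at hz
    exact ⟨z, hz.2.2.2, hz.2.2.1, hz.2.1, hz.1⟩
  obtain ⟨c0, m0, _⟩ := pick (L 0) (hL 0) 0 0 0
  obtain ⟨c1, m1, h10, _⟩ := pick (L 1) (hL 1) c0 c0 c0
  obtain ⟨c2, m2, h20, h21, _⟩ := pick (L 2) (hL 2) c0 c1 c1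
  obtain ⟨c3, m3, h30, h31, h32⟩ := pick (L 3) (hL 3) c0 c1 c2
  set c : ℕ → ℕ := fun j => if j = 0 then c0 else if j = 1 then c1 else if j = 2 then c2 else c3 with hc
  have d0 : c 0 = c0 := by simp [hc]
  have d1 : c 1 = c1 := by simp [hc]
  have d2 : c 2 = c2 := by simp [hc]
  have d3 : c 3 = c3 := by simp [hc]
  have hinj : ∀ u v, u < 4 → v < 4 → u ≠ v → c u ≠ c v := by
    intro u v hu hv huv
    interval_cases u <;> interval_cases v <;> simp only [d0, d1, d2, d3] <;>
      first
        | exact absurd rfl huv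
        | assumption
        | (apply Ne.symm; assumption)
  refine ⟨c, ?_, ?_⟩
  · intro k hk
    have : k < 4 := by omega
    interval_cases k <;> simp only [d0, d1, d2, d3] <;> assumption
  · intro t a ht htn ha
    refine ⟨0, by omega, ?_⟩
    have h1 : (a + 0) % n < n := Nat.mod_lt _ (by omega)
    have h2 : (a + 0 + t) % n < n := Nat.mod_lt _ (by omega)
    apply hinj _ _ (by omega) (by omega)
    intro h
    have e1 : (a + 0) % n = a := Nat.mod_eq_of_lt (by omega)
    rw [e1] at h
    by_cases hc : a + 0 + t < n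
    · rw [Nat.mod_eq_of_lt hc] at h; omega
    · rw [Nat.mod_eq_sub_mod (by omega), Nat.mod_eq_of_lt (by omega)] at h; omega

end
end Pool.Agent.H565.Cyc
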