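import Pool.Agent.H565.Cyc.Grow

set_option autoImplicit false

namespace Pool.Agent.H565.Cyc
open Finset
open scoped Classical

noncomputable section

variable {ℒ : ℕ → Finset ℕ} {R : ℕ} {q : ℕ → ℕ}

/-- words in state `a` -/
def aCount (ℒ : ℕ → Finset ℕ) (m : ℕ) : ℚ :=
  ∑ c ∈ W ℒ m, (if c (m - 1) = c (m - 3) then (1 : ℚ) else 0)

lemma N_eq_S (m : ℕ) : N ℒ m = S ℒ m + 3 / 11 * aCount ℒ m := by
  rw [N_eq, S, aCount, mul_sum, ← sum_add_distrib]
  refine sum_congr rfl fun c _ => ?_
  unfold wt
  split_ifs <;> norm_num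

lemma aCount_le {m : ℕ} (hm : 4 ≤ m) : aCount ℒ m ≤ S ℒ (m - 1) := by
  rw [aCount, ← sum_filter, S]
  refine inj_bound (m := m) (j := m - 1) (fun i => i - 2) ?_ ?_ ?_ _ _ ?_ ?_
  · intro c hc i hi
    rw [mem_filter, mem_W] at hc
    exact hc.1.1.2 i hi
  · intro c hc
    rw [mem_filter, mem_W] at hc
    exact trunc_mem (fun k hk => hc.1.1.1 k (by omega)) (fun p hp => hc.1.2 p (by omega))
  · intro c hc i h1 h2
    rw [mem_filter] at hc
    refine ⟨by show i - 2 < m - 1; omega, ?_⟩
    have e : i = m - 1 := by omega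
    subst e
    have e2 : m - 1 - 2 = m - 3 := by omega
    rw [e2]; exact hc.2
  · intro c hc
    rw [mem_filter, mem_W] at hc
    unfold wt
    rw [if_neg]
    simp only [trunc]
    rw [if_pos (by omega), if_pos (by omega)]
    intro h
    obtain ⟨i, hi, hne⟩ := (hc.1.2 (m - 1) (by omega)).1 2 (m - 4) (by norm_num) (by omega)
    have h3 := hc.2
    have e1 : m - 1 - 1 = m - 2 := by omega
    have e2 : m - 1 - 3 = m - 4 := by omega
    rw [e1, e2] at h
    interval_cases i
    · apply hne
      have e3 : m - 4 + 0 = m - 4 := by omega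
      have e4 : m - 4 + 2 + 0 = m - 2 := by omega
      rw [e3, e4]; exact h.symm
    · apply hne
      have e3 : m - 4 + 1 = m - 3 := by omega
      have e4 : m - 4 + 2 + 1 = m - 1 := by omega
      rw [e3, e4]; exact h3.symm
  · intro v _; exact wt_nonneg _ _

/-- the main growth theorem -/
lemma Setup.rate (hS : Setup ℒ R q) : ∀ k, R + 1 ≤ k →
    9 / 4 * S ℒ k ≤ S ℒ (k + 1) ∧ N ℒ k ≤ 9 / 8 * S ℒ k ∧
    (R + 4 ≤ k → ∑ j ∈ Ico (R + 1) (k - 1), S ℒ j + 1 ≤ 272 / 729 * S ℒ k) := by
  have h2 := hS.hR2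
  have h6 := hS.hR6
  intro k
  induction k using Nat.strong_induction_on with
  | _ k ih =>
  intro hk
  have hSk := S_nonneg (ℒ := ℒ) k
  -- N bound
  have hN : N ℒ k ≤ 9 / 8 * S ℒ k := by
    rcases Nat.eq_or_lt_of_le hk with h | h
    · rw [← h, hS.N_base, hS.S_base]; norm_num
    · have h1 := (ih (k - 1) (by omega) (by omega)).1
      rw [show k - 1 + 1 = k by omega] at h1
      have h3 := aCount_le (ℒ := ℒ) (m := k) (by omega)
      rw [N_eq_S]
      linarith
  -- A bound
  have hA : R + 4 ≤ k → ∑ j ∈ Ico (R + 1) (k - 1), S ℒ j + 1 ≤ 272 / 729 * S ℒ k := by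
    intro hk4
    rcases Nat.eq_or_lt_of_le hk4 with h | h
    · subst h
      have e : R + 4 - 1 = R + 1 + 1 + 1 := by omega
      rw [e, sum_Ico_succ_top (by omega), sum_Ico_succ_top (by omega), Ico_self, sum_empty]
      have g1 := (ih (R + 1) (by omega) (by omega)).1
      have g2 := (ih (R + 2) (by omega) (by omega)).1
      have g3 := (ih (R + 3) (by omega) (by omega)).1
      have g0 := hS.S_base
      rw [show R + 1 + 1 = R + 2 by omega] at g1 ⊢
      rw [show R + 2 + 1 = R + 3 by omega] at g2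
      rw [show R + 3 + 1 = R + 4 by omega] at g3
      rw [g0] at g1 ⊢
      linarith
    · obtain ⟨g1, _, g3⟩ := ih (k - 1) (by omega) (by omega)
      have g4 := (ih (k - 2) (by omega) (by omega)).1
      have g5 := g3 (by omega)
      rw [show k - 1 + 1 = k by omega] at g1
      rw [show k - 2 + 1 = k - 1 by omega] at g4
      have e : k - 1 = k - 1 - 1 + 1 := by omega
      rw [e, sum_Ico_succ_top (by omega)]
      rw [show k - 1 - 1 = k - 2 by omega] at g5 ⊢
      linarith
  refine ⟨?_, hN, hA⟩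
  have hg := hS.grow hk
  by_cases hd : R + 4 ≤ k
  · have hA' := hA hd
    rw [if_pos (by omega)] at hg
    have hrec : (if 10 ≤ k then N ℒ (k - 3) else 0) ≤ 72 / 729 * S ℒ k := by
      split_ifs with h10
      · obtain ⟨_, g2, _⟩ := ih (k - 3) (by omega) (by omega)
        have g3 := (ih (k - 3) (by omega) (by omega)).1
        have g4 := (ih (k - 2) (by omega) (by omega)).1
        have g5 := (ih (k - 1) (by omega) (by omega)).1
        rw [show k - 3 + 1 = k - 2 by omega] at g3
        rw [show k - 2 + 1 = k - 1 by omega] at g4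
        rw [show k - 1 + 1 = k by omega] at g5
        linarith
      · linarith
    linarith
  · have hrec : (if 10 ≤ k then N ℒ (k - 3) else (0 : ℚ)) = 0 := by
      rw [if_neg (by omega)]
    rw [hrec] at hg
    have hcase : k = R + 1 ∨ k = R + 2 ∨ k = R + 3 := by omega
    rcases hcase with h | h | h
    · subst h
      rw [if_neg (by omega), show R + 1 - 1 = R by omega, Ico_eq_empty (by omega), sum_empty] at hg
      linarith
    · subst h
      rw [if_neg (by omega), show R + 2 - 1 = R + 1 by omega, Ico_self, sum_empty] at hg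
      linarith
    · subst h
      rw [if_pos (by omega), show R + 3 - 1 = R + 1 + 1 by omega, sum_Ico_succ_top (by omega),
        Ico_self, sum_empty] at hg
      have g1 := (ih (R + 1) (by omega) (by omega)).1
      have g2 := (ih (R + 2) (by omega) (by omega)).1
      have g0 := hS.S_base
      rw [show R + 1 + 1 = R + 2 by omega] at g1
      rw [show R + 2 + 1 = R + 3 by omega] at g2
      rw [g0] at g1 hg
      linarith

lemma Setup.S_pos (hS : Setup ℒ R q) {k : ℕ} (hk : R + 1 ≤ k) : 0 < S ℒ k := by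
  induction k, hk using Nat.le_induction with
  | base => rw [hS.S_base]; norm_num
  | succ k hk ih =>
    have := (hS.rate k hk).1
    linarith

lemma Setup.S_pow (hS : Setup ℒ R q) {k : ℕ} (hk : R + 1 ≤ k) (r : ℕ) :
    S ℒ k ≤ (4 / 9) ^ r * S ℒ (k + r) := by
  induction r with
  | zero => simp
  | succ r ih =>
    have := (hS.rate (k + r) (by omega)).1
    rw [pow_succ, ← add_assoc]
    have h : (0 : ℚ) < (4 / 9) ^ r := by positivity
    nlinarith

lemma Setup.N_pow (hS : Setup ℒ R q) {k m : ℕ} (hk : R + 1 ≤ k) (hkm : k ≤ m) :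
    N ℒ k ≤ 9 / 8 * ((4 / 9) ^ (m - k) * S ℒ m) := by
  have h1 := (hS.rate k hk).2.1
  have h2 := hS.S_pow hk (m - k)
  rw [show k + (m - k) = m by omega] at h2
  linarith

end
end Pool.Agent.H565.Cyc
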